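import Mathlib
import Pool.Agent.H188R3.TensorDefs
import Pool.Agent.H308R2.ZS.Defs
import Pool.Agent.W658.ZS.Nuc5

/-!
# MP_37a859_an: a simple purely infinite `𝒵`-stable C*-algebra which is not `𝒪_∞`-stable

Let `𝒵` be the Jiang–Su algebra.  There is a separable, unital, simple, purely infinite C*-algebra
`B` with `B ⊗ 𝒵 ≅ B` such that `B ⊗ 𝒪_∞` is not isomorphic to `B`.

`B = D ⊗ 𝒵^{⊗ ∞}`, where `D` is the C*-algebra of operators on `ℓ²` of the nonempty words over the
free group `F₂` generated by the left translations of the first letter and by the isometry which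
puts the letter `e` in front.  `B` acts on `ℓ²(words) ⊗ H`, `H` the Hilbert space of the trace of
`𝒵^{⊗ ∞}`.  The right translations of the last letter commute with `B`, and conjugation by them has
a spectral gap orthogonally to `Ω = δ_e`; so an element `x` of `B` which almost commutes with the
two unitaries given by the generators of `F₂` almost maps `Ω ⊗ η` into `Ω ⊗ H`, and the trace
property of `η` excludes two such isometries with orthogonal ranges.  But every C*-tensor product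
with `𝒪_∞` has asymptotically central isometries with orthogonal ranges.

`Pool.Agent.H188R3.IsMinTensor f g`, used below, says that the target of `f : A → T`, `g : B → T` is
the minimal tensor product of `A` and `B`.
-/

set_option autoImplicit false

open scoped Kronecker

namespace Pool.Agent.Results.MP_37a859_an.ZStableNotOInf

open Pool.Agent.H188R3

/-- The function `F : [0,1] → M_p ⊗ M_q` is in the dimension drop algebra `Z_{p,q}`: it is
continuous, `F(0) ∈ M_p ⊗ 1` and `F(1) ∈ 1 ⊗ M_q`. -/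
def InDimDrop (p q : ℕ) (F : unitInterval → Matrix (Fin p × Fin q) (Fin p × Fin q) ℂ) : Prop :=
  Continuous F ∧
    (∃ x : Matrix (Fin p) (Fin p) ℂ, F 0 = x ⊗ₖ (1 : Matrix (Fin q) (Fin q) ℂ)) ∧
    ∃ y : Matrix (Fin q) (Fin q) ℂ, F 1 = (1 : Matrix (Fin p) (Fin p) ℂ) ⊗ₖ y

/-- `D` is isomorphic to the dimension drop algebra `Z_{p,q}`: some `φ` is a bijection from `D` to
the set of the elements of `Z_{p,q}` and preserves sums, products, multiples and adjoints (which are
pointwise in `Z_{p,q}`). -/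
def IsoDimDrop {Z : Type} [CStarAlgebra Z] (D : StarSubalgebra ℂ Z) (p q : ℕ) : Prop :=
  ∃ φ : Z → unitInterval → Matrix (Fin p × Fin q) (Fin p × Fin q) ℂ,
    Set.BijOn φ (D : Set Z) {F | InDimDrop p q F} ∧
    ∀ a ∈ D, ∀ b ∈ D, ∀ t, φ (a + b) t = φ a t + φ b t ∧ φ (a * b) t = φ a t * φ b t ∧
      φ (star a) t = (φ a t).conjTranspose ∧ ∀ c : ℂ, φ (c • a) t = c • φ a t

/-- `τ` is a tracial state. -/
structure IsTracialState {Z : Type} [CStarAlgebra Z] (τ : Z →ₗ[ℂ] ℂ) : Prop where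
  one : τ 1 = 1
  comm : ∀ x y, τ (x * y) = τ (y * x)
  pos : ∀ x, 0 ≤ (τ (star x * x)).re ∧ (τ (star x * x)).im = 0

/-- `B` is simple: `B ≠ 0` and every closed two-sided ideal is `0` or `B`. -/
def Simple (B : Type) [CStarAlgebra B] : Prop :=
  Nontrivial B ∧ ∀ I : TwoSidedIdeal B, IsClosed (I : Set B) → I = ⊥ ∨ I = ⊤

/-- `Z` is the Jiang–Su algebra: a simple unital C*-algebra with a unique tracial state which is
the closure of an increasing union of subalgebras isomorphic to prime dimension drop algebras. -/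
structure IsJiangSu (Z : Type) [CStarAlgebra Z] : Prop where
  simple : Simple Z
  trace : ∃! τ : Z →ₗ[ℂ] ℂ, IsTracialState τ
  lim : ∃ (n : ℕ → ℕ) (D : ℕ → StarSubalgebra ℂ Z), Monotone D ∧
    Filter.Tendsto n Filter.atTop Filter.atTop ∧
    (∀ k, IsClosed (D k : Set Z) ∧ IsoDimDrop (D k) (n k + 1) (n k + 2)) ∧ Dense (⋃ k, (D k : Set Z))

/-- `p` is an infinite projection: it is Murray–von Neumann equivalent to a proper subprojection
`w w*` of itself. -/
def InfiniteProjection {B : Type} [CStarAlgebra B] (p : B) : Prop :=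
  star p = p ∧ p * p = p ∧
    ∃ w : B, star w * w = p ∧ p * (w * star w) = w * star w ∧ w * star w ≠ p

/-- `H` is a hereditary C*-subalgebra of `B`: a closed `*`-subalgebra such that `0 ≤ y ≤ x` and
`x ∈ H` imply `y ∈ H`; here `y = c* c` and `x - y = d* d`. -/
def Hereditary {B : Type} [CStarAlgebra B] (H : NonUnitalStarSubalgebra ℂ B) : Prop :=
  IsClosed (H : Set B) ∧ ∀ c d : B, star c * c + star d * d ∈ H → star c * c ∈ H

/-- Pure infiniteness in the sense of Cuntz: every nonzero hereditary C*-subalgebra contains an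
infinite projection. -/
def PurelyInfinite (B : Type) [CStarAlgebra B] : Prop :=
  ∀ H : NonUnitalStarSubalgebra ℂ B, Hereditary H → (∃ b ∈ H, b ≠ 0) →
    ∃ p ∈ H, InfiniteProjection p

/-- `O` is the Cuntz algebra `𝒪_∞`: a nonzero unital C*-algebra generated by a sequence of
isometries with mutually orthogonal ranges. -/
def IsCuntzInfinity (O : Type) [CStarAlgebra O] : Prop :=
  Nontrivial O ∧ ∃ s : ℕ → O, (∀ i, star (s i) * s i = 1) ∧ (∀ i j, i ≠ j → star (s i) * s j = 0) ∧
    (StarAlgebra.adjoin ℂ (Set.range s)).topologicalClosure = ⊤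

/-- `B` absorbs `Z`: `B ⊗ Z ≅ B`, where `B ⊗ Z` is the minimal C*-tensor product. -/
def Absorbs (B Z : Type) [CStarAlgebra B] [CStarAlgebra Z] : Prop :=
  ∃ (T : Type) (_ : CStarAlgebra T) (f : B →⋆ₐ[ℂ] T) (g : Z →⋆ₐ[ℂ] T),
    IsMinTensor f g ∧ Nonempty (T ≃⋆ₐ[ℂ] B)

lemma dimDrop_of {Z : Type} [CStarAlgebra Z] {D : StarSubalgebra ℂ Z} {n : ℕ}
    (h : IsoDimDrop D (n + 1) (n + 2)) :
    Nonempty (Pool.Agent.H308R2.ZS.dimDrop n ≃⋆ₐ[ℂ] D) := by
  obtain ⟨φ, ⟨h1, h2, h3⟩, h4⟩ := h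
  have key : ∀ a : D, ∃ F : Pool.Agent.H308R2.ZS.dimDrop n, ∀ t, F.1 t = φ a t := by
    intro a
    obtain ⟨hc, hx, hy⟩ := h1 a.2
    exact ⟨⟨⟨φ a, hc⟩, hx, hy⟩, fun t => rfl⟩
  choose G hG using key
  have hadd : ∀ a b : D, G (a + b) = G a + G b := by
    intro a b
    apply Subtype.ext
    ext1 t
    refine (hG (a + b) t).trans (((h4 a a.2 b b.2 t).1).trans ?_)
    rw [← hG a t, ← hG b t]
    rfl
  have hmul : ∀ a b : D, G (a * b) = G a * G b := by
    intro a b
    apply Subtype.ext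
    ext1 t
    refine (hG (a * b) t).trans (((h4 a a.2 b b.2 t).2.1).trans ?_)
    rw [← hG a t, ← hG b t]
    rfl
  have hstar : ∀ a : D, G (star a) = star (G a) := by
    intro a
    apply Subtype.ext
    ext1 t
    refine (hG (star a) t).trans (((h4 a a.2 a a.2 t).2.2.1).trans ?_)
    rw [← hG a t]
    rfl
  have hsmul : ∀ (c : ℂ) (a : D), G (c • a) = c • G a := by
    intro c a
    apply Subtype.ext
    ext1 t
    refine (hG (c • a) t).trans (((h4 a a.2 a a.2 t).2.2.2 c).trans ?_)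
    rw [← hG a t]
    rfl
  have hinj : Function.Injective G := by
    intro a b hab
    apply Subtype.ext
    apply h2 a.2 b.2
    funext t
    rw [← hG a t, ← hG b t, hab]
  have hsurj : Function.Surjective G := by
    intro F
    obtain ⟨a, ha, hF⟩ := h3 (show InDimDrop (n + 1) (n + 2) (fun t => F.1 t) from
      ⟨F.1.continuous, F.2.1, F.2.2⟩)
    refine ⟨⟨a, ha⟩, ?_⟩
    apply Subtype.ext
    ext1 t
    exact (hG ⟨a, ha⟩ t).trans (congrFun hF t)
  have e : D ≃⋆ₐ[ℂ] Pool.Agent.H308R2.ZS.dimDrop n :=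
    { toEquiv := Equiv.ofBijective G ⟨hinj, hsurj⟩
      map_mul' := hmul
      map_add' := hadd
      map_star' := hstar
      map_smul' := hsmul }
  exact ⟨e.symm⟩

lemma jiangSu_of {Z : Type} [CStarAlgebra Z] (h : IsJiangSu Z) :
    ∃ τ : Z →ₗ[ℂ] ℂ, Pool.Agent.H308R2.ZS.IsJiangSu Z τ := by
  obtain ⟨τ, hτ, hu⟩ := h.trace
  refine ⟨τ, ?_, ⟨hτ.one, hτ.comm, hτ.pos⟩, ?_, ?_⟩
  · intro I hI hm
    have hm1 : ∀ x ∈ I, ∀ y, y * x ∈ I := fun x hx y => by simpa using hm x hx y 1
    have hm2 : ∀ x ∈ I, ∀ y, x * y ∈ I := fun x hx y => by simpa using hm x hx 1 y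
    let J : TwoSidedIdeal Z := TwoSidedIdeal.mk' (I : Set Z) I.zero_mem (fun a b => I.add_mem a b)
      (fun a => I.neg_mem a) (fun {x y} hy => hm1 y hy x) (fun {x y} hx => hm2 x hx y)
    have hJ : (J : Set Z) = (I : Set Z) := by
      ext x
      exact TwoSidedIdeal.mem_mk' _ _ _ _ _ _ _
    have hJc : IsClosed (J : Set Z) := hJ ▸ hI
    rcases h.simple.2 J hJc with h0 | h1
    · left
      refine SetLike.coe_injective ?_
      rw [← hJ, h0]
      ext x
      simp
    · right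
      refine SetLike.coe_injective ?_
      rw [← hJ, h1]
      ext x
      simp
  · intro τ' h'
    exact hu τ' ⟨h'.one, h'.comm, h'.pos⟩
  · obtain ⟨n, D, h1, h2, h3, h4⟩ := h.lim
    exact ⟨n, D, h1, h2, fun k => (h3 k).1, fun k => dimDrop_of (h3 k).2, h4⟩

/-- If `Z` is the Jiang–Su algebra, there is a separable, unital, simple, purely infinite
C*-algebra `B` with `B ⊗ Z ≅ B` and `B ⊗ 𝒪_∞ ≇ B`. -/
theorem result : ∀ (Z : Type) [CStarAlgebra Z], IsJiangSu Z →
    ∃ (B : Type) (_ : CStarAlgebra B), TopologicalSpace.SeparableSpace B ∧ Simple B ∧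
      PurelyInfinite B ∧ Absorbs B Z ∧
      ∀ (O : Type) [CStarAlgebra O], IsCuntzInfinity O → ¬ Absorbs B O := by
  intro Z _ h'
  obtain ⟨τ, h⟩ := jiangSu_of h'
  obtain ⟨B, iB, h1, h2, h3, ⟨f, g, hfg⟩, h4⟩ := Pool.Agent.W658.ZS.main_jiangSu Z τ h
  refine ⟨B, iB, h1, h2, h3, ⟨B, iB, f, g, hfg, ⟨StarAlgEquiv.refl ℂ B⟩⟩, ?_⟩
  rintro O _ hO ⟨T, _, f, g, hfg, ⟨e⟩⟩
  exact (h4 O hO T f g hfg.normed.commute hfg.dense).false e.symm

end Pool.Agent.Results.MP_37a859_an.ZStableNotOInf
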